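import Pool.Agent.H558Cap.Bound

/-!
Subgroup codes of the fraction graphs `E_{a/b}` for arbitrary (composite) `a`: a divisibility and the
resulting upper bound for the subgroup Shannon capacity.
-/

namespace Pool.Agent.Results.MP_fc334d_co.CompositeAlphabets

open Polynomial Finset

/-- the residues at distance at least `b` from `0` modulo `a`. -/
def far (a b : ℕ) [NeZero a] : Finset (ZMod a) :=
  Finset.univ.filter (fun c : ZMod a => b ≤ c.val ∧ b ≤ (-c).val)

/-- `H` is a subgroup which is an independent set of the `n`-th strong power of `E_{a/b}`. -/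
def Indep {a n : ℕ} (b : ℕ) (H : AddSubgroup (Fin n → ZMod a)) : Prop :=
  ∀ x ∈ H, x ≠ 0 → ∃ i, b ≤ (x i).val ∧ b ≤ (-x i).val

/-- the subgroup Shannon capacity of `E_{a/b}`. -/
noncomputable def thetaGrp (a b : ℕ) : ℝ :=
  ⨆ n : ℕ, ((sSup {k : ℕ | ∃ H : AddSubgroup (Fin (n + 1) → ZMod a), Nat.card H = k ∧ Indep b H} : ℕ) : ℝ)
    ^ ((1 : ℝ) / ((n : ℝ) + 1))

lemma eval_pos {a b : ℕ} [NeZero a] (hb : 0 < b) {c : ZMod a} (hc : c ∈ far a b) :
    1 ≤ (cyclotomic (addOrderOf c) ℤ).eval 1 := by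
  have h1 : b ≤ c.val := (Finset.mem_filter.1 hc).2.1
  have hc0 : c ≠ 0 := by
    intro h
    rw [h, ZMod.val_zero] at h1
    omega
  have h0 : addOrderOf c ≠ 1 := fun h => hc0 (AddMonoid.addOrderOf_eq_one_iff.1 h)
  have h2 : 0 < addOrderOf c := addOrderOf_pos c
  have : 0 < (cyclotomic (addOrderOf c) ℤ).eval 1 := by
    rcases Nat.lt_or_ge 2 (addOrderOf c) with h | h
    · exact cyclotomic_pos h 1
    · have h3 : addOrderOf c = 2 := by omega
      rw [h3, cyclotomic_two]
      norm_num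
  omega

theorem result :
    (∀ (a b n : ℕ) [NeZero a] (H : AddSubgroup (Fin n → ZMod a)), Indep b H →
      ((Nat.card H : ℤ)) ^ Nat.totient a ∣
        (∏ c ∈ far a b, ((cyclotomic (addOrderOf c) ℤ).eval 1) ^
          (Nat.totient a / Nat.totient (addOrderOf c))) ^ n) ∧
    (∀ (a b : ℕ) [NeZero a], 0 < b →
      thetaGrp a b ≤ ∏ c ∈ far a b,
        (((cyclotomic (addOrderOf c) ℤ).eval 1 : ℤ) : ℝ) ^ ((1 : ℝ) / (Nat.totient (addOrderOf c) : ℝ))) := by
  have hdvd : ∀ (a b n : ℕ) [NeZero a] (H : AddSubgroup (Fin n → ZMod a)), Indep b H →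
      ((Nat.card H : ℤ)) ^ Nat.totient a ∣
        (∏ c ∈ far a b, ((cyclotomic (addOrderOf c) ℤ).eval 1) ^
          (Nat.totient a / Nat.totient (addOrderOf c))) ^ n := by
    intro a b n _ H hH
    refine Pool.Agent.H558Cap.card_pow_dvd (far a b) H ?_
    intro x hx hx0
    obtain ⟨i, h1, h2⟩ := hH x hx hx0
    exact ⟨i, Finset.mem_filter.2 ⟨Finset.mem_univ _, h1, h2⟩⟩
  refine ⟨hdvd, ?_⟩
  intro a b _ hb
  unfold thetaGrp
  apply ciSup_le
  intro n
  set S : Set ℕ := {k : ℕ | ∃ H : AddSubgroup (Fin (n + 1) → ZMod a), Nat.card H = k ∧ Indep b H} with hS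
  set A : ℤ := ∏ c ∈ far a b, ((cyclotomic (addOrderOf c) ℤ).eval 1) ^
          (Nat.totient a / Nat.totient (addOrderOf c)) with hA
  have hA1 : 1 ≤ A := by
    rw [hA]
    have : ∀ c ∈ far a b, (1 : ℤ) ≤ ((cyclotomic (addOrderOf c) ℤ).eval 1) ^
          (Nat.totient a / Nat.totient (addOrderOf c)) := fun c hc => one_le_pow₀ (eval_pos hb hc)
    have h2 : ∀ s : Finset (ZMod a), s ⊆ far a b → (1 : ℤ) ≤ ∏ c ∈ s, ((cyclotomic (addOrderOf c) ℤ).eval 1) ^
          (Nat.totient a / Nat.totient (addOrderOf c)) := by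
      intro s
      induction s using Finset.induction_on with
      | empty => intro _; simp
      | insert c s hc ih =>
        intro hs
        rw [Finset.prod_insert hc]
        exact one_le_mul_of_one_le_of_one_le (this c (hs (Finset.mem_insert_self c s)))
          (ih (fun x hx => hs (Finset.mem_insert_of_mem hx)))
    exact h2 _ (Finset.Subset.refl _)
  have hφ : 0 < Nat.totient a := Nat.totient_pos.2 (NeZero.pos a)
  have hbound : ∀ k ∈ S, (k : ℤ) ^ Nat.totient a ≤ A ^ (n + 1) := by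
    rintro k ⟨H, rfl, hH⟩
    exact Int.le_of_dvd (by positivity) (hdvd a b (n + 1) H hH)
  have hne : S.Nonempty := by
    refine ⟨1, ⊥, by simp, ?_⟩
    intro x hx hx0
    exact absurd (AddSubgroup.mem_bot.1 hx) hx0
  have hbdd : BddAbove S := by
    refine ⟨(A ^ (n + 1)).toNat, ?_⟩
    intro k hk
    have h1 := hbound k hk
    have h2 : (k : ℤ) ≤ (k : ℤ) ^ Nat.totient a := by
      rcases Nat.eq_zero_or_pos k with h | h
      · rw [h]; simp [hφ.ne']
      · exact_mod_cast Nat.le_self_pow hφ.ne' k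
    omega
  have hmem := Nat.sSup_mem hne hbdd
  set k := sSup S with hk
  have h1 := hbound k hmem
  have h1' : (k : ℝ) ^ Nat.totient a ≤ (A : ℝ) ^ (n + 1) := by exact_mod_cast h1
  have hAr : (0 : ℝ) ≤ (A : ℝ) := by
    have : (0 : ℤ) ≤ A := by omega
    exact_mod_cast this
  have hR : ∏ c ∈ far a b,
        (((cyclotomic (addOrderOf c) ℤ).eval 1 : ℤ) : ℝ) ^ ((1 : ℝ) / (Nat.totient (addOrderOf c) : ℝ))
      = (A : ℝ) ^ ((1 : ℝ) / (Nat.totient a : ℝ)) := by
    rw [hA]
    push_cast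
    rw [← Real.finset_prod_rpow]
    · apply Finset.prod_congr rfl
      intro c hc
      have hE : (0 : ℝ) ≤ (((cyclotomic (addOrderOf c) ℤ).eval 1 : ℤ) : ℝ) := by
        have := eval_pos hb hc
        have : (0 : ℤ) ≤ (cyclotomic (addOrderOf c) ℤ).eval 1 := by omega
        exact_mod_cast this
      rw [← Real.rpow_natCast, ← Real.rpow_mul hE]
      congr 1
      have hd : Nat.totient (addOrderOf c) ∣ Nat.totient a := by
        apply Nat.totient_dvd_of_dvd
        have := addOrderOf_dvd_natCard c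
        rwa [Nat.card_zmod] at this
      have hd0 : (Nat.totient (addOrderOf c) : ℝ) ≠ 0 := by
        have : 0 < Nat.totient (addOrderOf c) := Nat.totient_pos.2 (addOrderOf_pos c)
        exact_mod_cast this.ne'
      rw [Nat.cast_div hd hd0]
      have : (Nat.totient a : ℝ) ≠ 0 := by exact_mod_cast hφ.ne'
      field_simp
    · intro c hc
      have := eval_pos hb hc
      have : (0 : ℤ) ≤ (cyclotomic (addOrderOf c) ℤ).eval 1 := by omega
      have : (0 : ℝ) ≤ (((cyclotomic (addOrderOf c) ℤ).eval 1 : ℤ) : ℝ) := by exact_mod_cast this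
      positivity
  rw [hR]
  have hk0 : (0 : ℝ) ≤ (k : ℝ) := Nat.cast_nonneg k
  have hφr : (0 : ℝ) < (Nat.totient a : ℝ) := by exact_mod_cast hφ
  have hnr : (0 : ℝ) < (n : ℝ) + 1 := by positivity
  -- raise `h1'` to the power `1 / (φ(a) (n + 1))`
  have h3 := Real.rpow_le_rpow (by positivity) h1' (z := (1 : ℝ) / ((Nat.totient a : ℝ) * ((n : ℝ) + 1)))
    (by positivity)
  rw [← Real.rpow_natCast, ← Real.rpow_natCast, ← Real.rpow_mul hk0, ← Real.rpow_mul hAr] at h3
  have e1 : (Nat.totient a : ℝ) * ((1 : ℝ) / ((Nat.totient a : ℝ) * ((n : ℝ) + 1))) = (1 : ℝ) / ((n : ℝ) + 1) := by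
    field_simp
  have e2 : (((n + 1 : ℕ) : ℝ)) * ((1 : ℝ) / ((Nat.totient a : ℝ) * ((n : ℝ) + 1))) = (1 : ℝ) / (Nat.totient a : ℝ) := by
    push_cast
    field_simp
  rw [e1, e2] at h3
  exact h3

end Pool.Agent.Results.MP_fc334d_co.CompositeAlphabets
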