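import Pool.Agent.H558Cap.Smooth

/-!
Subgroup codes of fraction graphs `E_{a/b}` near `2` when `a` has only small prime power divisors.
-/

namespace Pool.Agent.Results.MP_fc334d_co.SmallPrimeDenominators

/-- `H` is a subgroup which is an independent set of the `n`-th strong power of `E_{a/b}`. -/
def Indep {a n : ℕ} (b : ℕ) (H : AddSubgroup (Fin n → ZMod a)) : Prop :=
  ∀ x ∈ H, x ≠ 0 → ∃ i, b ≤ (x i).val ∧ b ≤ (-x i).val

/-- the subgroup Shannon capacity of `E_{a/b}`. -/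
noncomputable def thetaGrp (a b : ℕ) : ℝ :=
  ⨆ n : ℕ, ((sSup {k : ℕ | ∃ H : AddSubgroup (Fin (n + 1) → ZMod a), Nat.card H = k ∧ Indep b H} : ℕ) : ℝ)
    ^ ((1 : ℝ) / ((n : ℝ) + 1))

theorem result (a b : ℕ) (hb : 0 < b) (hab : 2 * b < a)
    (h1 : ∀ l : ℕ, l.Prime → l ∣ a → l * (a - 2 * b) < a)
    (h2 : ∀ j : ℕ, 2 ^ j ∣ a → 2 ^ j * (a - 2 * b) < 2 * a) :
    (∀ (n : ℕ) (H : AddSubgroup (Fin n → ZMod a)), Indep b H → Nat.card H ≤ 2 ^ n) ∧
    thetaGrp a b ≤ 2 := by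
  have ha : 0 < a := by omega
  have hmain : ∀ (n : ℕ) (H : AddSubgroup (Fin n → ZMod a)), Indep b H → Nat.card H ≤ 2 ^ n := by
    intro n H hH
    refine Pool.Agent.H558Cap.card_le_two_pow ha H ?_
    intro x hx hx0
    exact Pool.Agent.H558Cap.half_coord ha hb hab (Nat.mul_comm a b) h1 h2 H hH x hx hx0
  refine ⟨hmain, ?_⟩
  unfold thetaGrp
  apply ciSup_le
  intro n
  set S : Set ℕ := {k : ℕ | ∃ H : AddSubgroup (Fin (n + 1) → ZMod a), Nat.card H = k ∧ Indep b H} with hS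
  have hbound : ∀ k ∈ S, k ≤ 2 ^ (n + 1) := by
    rintro k ⟨H, rfl, hH⟩
    exact hmain (n + 1) H hH
  have hne : S.Nonempty := by
    refine ⟨1, ⊥, by simp, ?_⟩
    intro x hx hx0
    exact absurd (AddSubgroup.mem_bot.1 hx) hx0
  have hmem := Nat.sSup_mem hne ⟨2 ^ (n + 1), hbound⟩
  have h3 : ((sSup S : ℕ) : ℝ) ≤ (2 : ℝ) ^ (n + 1) := by exact_mod_cast hbound _ hmem
  have h4 := Real.rpow_le_rpow (Nat.cast_nonneg _) h3 (z := (1 : ℝ) / ((n : ℝ) + 1)) (by positivity)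
  refine h4.trans (le_of_eq ?_)
  rw [← Real.rpow_natCast, ← Real.rpow_mul (by norm_num)]
  have : (((n + 1 : ℕ) : ℝ)) * ((1 : ℝ) / ((n : ℝ) + 1)) = 1 := by
    push_cast
    field_simp
  rw [this, Real.rpow_one]

end Pool.Agent.Results.MP_fc334d_co.SmallPrimeDenominators
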